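import Pool.Agent.Lib.MP_569914_ag.NC.Calc

/-!
# MP_569914_ag: the classes of the negative curves on the symmetric square of a general curve
-/

namespace Pool.Agent.Results.MP_569914_ag.NegativeClass

open Pool.Agent.MP_569914.NC

private theorem search5 : ∀ k : ℕ, k < 19 → ∀ b : ℕ, b < 47 → 29 * b ≤ 72 * k →
    4 * 5 * k ^ 2 < (b + 2 * k) ^ 2 → False := by
  decide +kernel

private theorem search6 : ∀ k : ℕ, k < 10 → ∀ b : ℕ, b < 29 → 55 * b ≤ 160 * k →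
    4 * 6 * k ^ 2 < (b + 2 * k) ^ 2 → False := by
  decide +kernel

private theorem search7 : ∀ k : ℕ, k < 10 → ∀ b : ℕ, b < 33 → 40 * b ≤ 132 * k →
    4 * 7 * k ^ 2 < (b + 2 * k) ^ 2 → False := by
  decide +kernel

private theorem search8 : ∀ k : ℕ, k < 35 → ∀ b : ℕ, b < 128 → 65 * b ≤ 238 * k →
    4 * 8 * k ^ 2 < (b + 2 * k) ^ 2 → False := by
  decide +kernel

private theorem search10 : ∀ k : ℕ, k < 77 → ∀ b : ℕ, b < 333 → 154 * b ≤ 666 * k →
    4 * 10 * k ^ 2 < (b + 2 * k) ^ 2 → False := by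
  decide +kernel

private theorem negative_class {g : ℕ} (hg : 3 ≤ g) {G Pic Crv : Type} [Group G]
    [AddCommGroup Pic] [DistribMulAction G Pic] [MulAction G Crv] (S : SymSq g G Pic Crv)
    (Γ : Crv) (h : S.Negative Γ) :
    (∀ Γ' : Crv, S.Negative Γ' → Γ' = Γ) ∧ (∀ σ : G, σ • Γ = Γ) ∧
    ∃ k b : ℕ, 1 ≤ k ∧ 1 ≤ b ∧ S.bundle Γ = k • S.canon ∧
      S.cls Γ = (2 * (k : ℤ) * (g - 1), -(b : ℤ)) ∧
      S.self Γ = -((g - 1) * (((b : ℤ) + 2 * k) ^ 2 - 4 * g * k ^ 2)) ∧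
      4 * g * k ^ 2 < (b + 2 * k) ^ 2 ∧
      (b + 2 * k) ^ 2 + (b + 2 * k) ≤ 4 * g * k ^ 2 + 2 * g * k ∧
      (∀ s : ℚ, 0 ≤ s → S.Slope s →
        (s + 1) * b ≤ 2 * k * (g - 1) ∧ (g : ℚ) - 1 ≤ (g - s ^ 2) * b ^ 2) ∧
      (g = 5 → S.Slope (20 / 9) → 47 ≤ b) ∧ (g = 6 → S.Slope (39 / 16) → 29 ≤ b) ∧
      (g = 7 → S.Slope (29 / 11) → 33 ≤ b) ∧ (g = 8 → S.Slope (48 / 17) → 128 ≤ b) ∧
      (g = 10 → S.Slope (117 / 37) → 333 ≤ b) := by
  have hg1 : 1 ≤ g := by omega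
  have hgz : (3 : ℤ) ≤ g := by exact_mod_cast hg
  have huniq : ∀ Γ' : Crv, S.Negative Γ' → Γ' = Γ := fun Γ' h' => unique S hg1 h' h
  refine ⟨huniq, ?_, ?_⟩
  · intro σ
    apply huniq
    refine ⟨smul_ne_diag S h.1 σ, ?_⟩
    unfold SymSq.self
    rw [cls_smul]
    exact h.2
  obtain ⟨k', hk'⟩ := bundle_eq S hg1 h
  have hn := coef_neg S hg1 h
  obtain ⟨ha, -⟩ := basic S h.1
  have hdeg : S.deg (S.bundle Γ) = k' * (2 * g - 2) := by
    rw [hk', map_zsmul, S.deg_canon, smul_eq_mul]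
  have hkpos : 0 < k' := by
    by_contra hcon
    rw [not_lt] at hcon
    have : k' * (2 * (g : ℤ) - 2) ≤ 0 := mul_nonpos_of_nonpos_of_nonneg hcon (by linarith)
    linarith
  obtain ⟨k, rfl⟩ : ∃ k : ℕ, k' = k := ⟨k'.toNat, by omega⟩
  obtain ⟨b, hb⟩ : ∃ b : ℕ, S.coef Γ = -(b : ℤ) := ⟨(-S.coef Γ).toNat, by omega⟩
  have hk1 : 1 ≤ k := by exact_mod_cast hkpos
  have hb1 : 1 ≤ b := by
    rw [hb] at hn
    omega
  have hself : S.self Γ = -((g - 1) * (((b : ℤ) + 2 * k) ^ 2 - 4 * g * k ^ 2)) := by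
    unfold SymSq.self SymSq.cls inter
    simp only
    rw [hdeg, hb]
    ring
  have hlow : 4 * g * k ^ 2 < (b + 2 * k) ^ 2 := by
    have h1 := h.2
    rw [hself] at h1
    have h2 : 0 < ((b : ℤ) + 2 * k) ^ 2 - 4 * g * k ^ 2 := by
      by_contra hcon
      rw [not_lt] at hcon
      have : ((g : ℤ) - 1) * (((b : ℤ) + 2 * k) ^ 2 - 4 * g * k ^ 2) ≤ 0 :=
        mul_nonpos_of_nonneg_of_nonpos (by linarith) hcon
      linarith
    have h3 : (4 * g * k ^ 2 : ℤ) < ((b : ℤ) + 2 * k) ^ 2 := by linarith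
    exact_mod_cast h3
  have hslope : ∀ s : ℚ, S.Slope s → (s + 1) * b ≤ 2 * k * (g - 1) := by
    intro s hs
    have h1 := hs Γ h.1
    rw [hdeg, hb] at h1
    push_cast at h1
    linarith
  refine ⟨k, b, hk1, hb1, ?_, ?_, hself, hlow, ?_, ?_, ?_, ?_, ?_, ?_, ?_⟩
  · rw [hk', natCast_zsmul]
  · unfold SymSq.cls
    rw [hdeg, hb]
    congr 1
    ring
  · have h1 := S.hurwitz Γ h.1
    have h2 : inter g (S.deg (S.bundle Γ), S.coef Γ) (S.deg (S.bundle Γ), S.coef Γ) =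
        S.self Γ := rfl
    rw [h2, hself] at h1
    have h3 : inter g (S.deg (S.bundle Γ), S.coef Γ) (1, 0) =
        2 * g * k - ((b : ℤ) + 2 * k) := by
      unfold inter
      simp only
      rw [hdeg, hb]
      ring
    rw [h3] at h1
    have h4 : ((b : ℤ) + 2 * k) ^ 2 - 4 * g * k ^ 2 ≤ 2 * g * k - ((b : ℤ) + 2 * k) := by
      by_contra hcon
      rw [not_le] at hcon
      have h5 := mul_lt_mul_of_pos_left hcon (show (0 : ℤ) < g - 1 by linarith)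
      linarith
    have h6 : ((b : ℤ) + 2 * k) ^ 2 + ((b : ℤ) + 2 * k) ≤ 4 * g * k ^ 2 + 2 * g * k := by
      linarith
    exact_mod_cast h6
  · intro s hs0 hs
    refine ⟨hslope s hs, ?_⟩
    have h1 := hslope s hs
    have h2 : (s * b) ^ 2 ≤ (2 * (k : ℚ) * (g - 1) - b) ^ 2 :=
      pow_le_pow_left₀ (by positivity) (by linarith) 2
    have h3 : (1 : ℚ) ≤ ((b : ℚ) + 2 * k) ^ 2 - 4 * g * k ^ 2 := by
      have : (4 * g * k ^ 2 + 1 : ℕ) ≤ (b + 2 * k) ^ 2 := hlow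
      have h4 : ((4 * g * k ^ 2 + 1 : ℕ) : ℚ) ≤ (((b + 2 * k) ^ 2 : ℕ) : ℚ) := by
        exact_mod_cast this
      push_cast at h4
      linarith
    have hgq : (3 : ℚ) ≤ g := by exact_mod_cast hg
    have h5 : (g : ℚ) - 1 ≤ (g - 1) * (((b : ℚ) + 2 * k) ^ 2 - 4 * g * k ^ 2) :=
      le_mul_of_one_le_right (by linarith) h3
    nlinarith
  · rintro rfl hs
    have h1 := hslope _ hs
    have h2 : 29 * b ≤ 72 * k := by
      have : (29 * b : ℚ) ≤ 72 * k := by push_cast at h1; linarith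
      exact_mod_cast this
    by_contra hcon
    rw [not_le] at hcon
    rcases Nat.lt_or_ge k 19 with h3 | h3
    · exact search5 k h3 b hcon h2 hlow
    · have h4 : (b + 2 * k) ^ 2 ≤ (46 + 2 * k) ^ 2 := Nat.pow_le_pow_left (by omega) 2
      nlinarith
  · rintro rfl hs
    have h1 := hslope _ hs
    have h2 : 55 * b ≤ 160 * k := by
      have : (55 * b : ℚ) ≤ 160 * k := by push_cast at h1; linarith
      exact_mod_cast this
    by_contra hcon
    rw [not_le] at hcon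
    rcases Nat.lt_or_ge k 10 with h3 | h3
    · exact search6 k h3 b hcon h2 hlow
    · have h4 : (b + 2 * k) ^ 2 ≤ (28 + 2 * k) ^ 2 := Nat.pow_le_pow_left (by omega) 2
      nlinarith
  · rintro rfl hs
    have h1 := hslope _ hs
    have h2 : 40 * b ≤ 132 * k := by
      have : (40 * b : ℚ) ≤ 132 * k := by push_cast at h1; linarith
      exact_mod_cast this
    by_contra hcon
    rw [not_le] at hcon
    rcases Nat.lt_or_ge k 10 with h3 | h3
    · exact search7 k h3 b hcon h2 hlow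
    · have h4 : (b + 2 * k) ^ 2 ≤ (32 + 2 * k) ^ 2 := Nat.pow_le_pow_left (by omega) 2
      nlinarith
  · rintro rfl hs
    have h1 := hslope _ hs
    have h2 : 65 * b ≤ 238 * k := by
      have : (65 * b : ℚ) ≤ 238 * k := by push_cast at h1; linarith
      exact_mod_cast this
    by_contra hcon
    rw [not_le] at hcon
    rcases Nat.lt_or_ge k 35 with h3 | h3
    · exact search8 k h3 b hcon h2 hlow
    · have h4 : (b + 2 * k) ^ 2 ≤ (127 + 2 * k) ^ 2 := Nat.pow_le_pow_left (by omega) 2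
      nlinarith
  · rintro rfl hs
    have h1 := hslope _ hs
    have h2 : 154 * b ≤ 666 * k := by
      have : (154 * b : ℚ) ≤ 666 * k := by push_cast at h1; linarith
      exact_mod_cast this
    by_contra hcon
    rw [not_le] at hcon
    rcases Nat.lt_or_ge k 77 with h3 | h3
    · exact search10 k h3 b hcon h2 hlow
    · have h4 : (b + 2 * k) ^ 2 ≤ (332 + 2 * k) ^ 2 := Nat.pow_le_pow_left (by omega) 2
      nlinarith

/-- Let `C` be the generic curve of genus `g ≥ 3`. There is an irreducible curve `Γ ≠ Δ` on `C(2)`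
with `Γ² < 0` if and only if, for some `k, b ≥ 1` with `(b + 2 k)² > 4 g k²`, the line bundle
`(k K)(2) ⊗ O(-b δ/2)` has a nonzero section. If `Γ` is such a curve, then it is the only one, it is
invariant under the Galois group, and there are integers `k, b ≥ 1` with
`O(Γ) = (k K)(2) ⊗ O(-b δ/2)`, so that the class of `Γ` is `2 k (g - 1) x - b (δ/2)`, with
`Γ² = -(g - 1) ((b + 2 k)² - 4 g k²)` and
`4 g k² < (b + 2 k)² ≤ 4 g k² + 2 g k - (b + 2 k)`. If `s ≥ 0` bounds the slopes of the curves from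
below, then `(s + 1) b ≤ 2 k (g - 1)` and `(g - s²) b² ≥ g - 1`; for the published bounds
`s = 20/9, 39/16, 29/11, 48/17, 117/37` in genus `5, 6, 7, 8, 10`, `b` is at least
`47, 29, 33, 128, 333`. -/
theorem result {g : ℕ} (hg : 3 ≤ g) {G Pic Crv : Type} [Group G] [AddCommGroup Pic]
    [DistribMulAction G Pic] [MulAction G Crv] (S : SymSq g G Pic Crv) :
    ((∃ Γ : Crv, S.Negative Γ) ↔
      ∃ k b : ℕ, 1 ≤ k ∧ 1 ≤ b ∧ 4 * g * k ^ 2 < (b + 2 * k) ^ 2 ∧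
        S.Effective (k • S.canon) (-(b : ℤ))) ∧
    ∀ Γ : Crv, S.Negative Γ →
    (∀ Γ' : Crv, S.Negative Γ' → Γ' = Γ) ∧ (∀ σ : G, σ • Γ = Γ) ∧
    ∃ k b : ℕ, 1 ≤ k ∧ 1 ≤ b ∧ S.bundle Γ = k • S.canon ∧
      S.cls Γ = (2 * (k : ℤ) * (g - 1), -(b : ℤ)) ∧
      S.self Γ = -((g - 1) * (((b : ℤ) + 2 * k) ^ 2 - 4 * g * k ^ 2)) ∧
      4 * g * k ^ 2 < (b + 2 * k) ^ 2 ∧
      (b + 2 * k) ^ 2 + (b + 2 * k) ≤ 4 * g * k ^ 2 + 2 * g * k ∧
      (∀ s : ℚ, 0 ≤ s → S.Slope s →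
        (s + 1) * b ≤ 2 * k * (g - 1) ∧ (g : ℚ) - 1 ≤ (g - s ^ 2) * b ^ 2) ∧
      (g = 5 → S.Slope (20 / 9) → 47 ≤ b) ∧ (g = 6 → S.Slope (39 / 16) → 29 ≤ b) ∧
      (g = 7 → S.Slope (29 / 11) → 33 ≤ b) ∧ (g = 8 → S.Slope (48 / 17) → 128 ≤ b) ∧
      (g = 10 → S.Slope (117 / 37) → 333 ≤ b) := by
  refine ⟨⟨?_, ?_⟩, fun Γ h => negative_class hg S Γ h⟩
  · rintro ⟨Γ, h⟩
    obtain ⟨-, -, k, b, hk, hb, h1, h2, -, h3, -⟩ := negative_class hg S Γ h
    refine ⟨k, b, hk, hb, h3, Finsupp.single Γ 1, ?_, ?_⟩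
    · rw [Finsupp.sum_single_index (by simp), one_nsmul, h1]
    · rw [Finsupp.sum_single_index (by simp), one_nsmul]
      exact congrArg Prod.snd h2
  · rintro ⟨k, b, -, hb, h1, h2⟩
    apply exists_negative S h2
    · have : (1 : ℤ) ≤ b := by exact_mod_cast hb
      linarith
    · rw [map_nsmul, S.deg_canon, nsmul_eq_mul]
      have h3 : 4 * (g : ℤ) * k ^ 2 < ((b : ℤ) + 2 * k) ^ 2 := by exact_mod_cast h1
      have hgz : (3 : ℤ) ≤ g := by exact_mod_cast hg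
      have h4 : 0 < ((g : ℤ) - 1) * (((b : ℤ) + 2 * k) ^ 2 - 4 * g * k ^ 2) :=
        mul_pos (by linarith) (by linarith)
      nlinarith

end Pool.Agent.Results.MP_569914_ag.NegativeClass
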